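import Mathlib
import Pool.Agent.TH409.FB.HypK

set_option autoImplicit false

/-!
# Height uniformity for sparse rational points on hyperelliptic curves

Let `K` be a number field, `F ∈ K[x]` a polynomial of degree `d ≥ 3` without repeated roots and
`x, y ∈ K` with `y ^ 2 = F(x)`. Suppose that for some `t` and some `z ≠ 0` in `K` the numbers
`z`, `z x`, `z y` are combinations of the same `r` powers of `t` with coefficients `v j 0`,
`v j 1`, `v j 2` in `K`. Then, `h` being the absolute logarithmic height,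

* `h(x) ≤ (1 + 8 (4 d) ^ r) (h(1 : a_0 : … : a_d) + d h(v) + log ((d + 2) r ^ d))`, where
  `a_0, …, a_d` are the coefficients of `F`;
* so if all coefficients of `F` have height at most `H`, then
  `h(x) ≤ (1 + 8 (4 d) ^ r) ((d + 1) H + d h(v) + log ((d + 2) r ^ d))`.

The constants do not depend on `K`, `F`, the base `t` and the exponents.
-/

namespace Pool.Agent.Results.MP_2a8cc2_nt.SparsePointsUniform

open Height Pool.Agent.TH409.SH Pool.Agent.TH409.FB

theorem result (K : Type) [Field K] [NumberField K] (d : ℕ) (hd : 3 ≤ d) (F : Polynomial K)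
    (hF : F.natDegree = d) (hs : F.Separable) (x y : K) (hxy : y ^ 2 = F.eval x)
    (r : ℕ) (t : K) (l : Fin r → ℕ) (v : Fin r → Fin 3 → K) (z : K) (hz : z ≠ 0)
    (h0 : z = ∑ j, t ^ (l j) * v j 0) (h1 : z * x = ∑ j, t ^ (l j) * v j 1)
    (h2 : z * y = ∑ j, t ^ (l j) * v j 2) :
    logHeight₁ x / Module.finrank ℚ K ≤ (1 + 8 * (4 * d) ^ r) *
      (ah K (cvec F) + d * ah K (fun q : Fin r × Fin 3 => v q.1 q.2) +
        Real.log ((d + 2) * r ^ d)) ∧
    ∀ H : ℝ, (∀ i, logHeight₁ (F.coeff i) / Module.finrank ℚ K ≤ H) →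
      logHeight₁ x / Module.finrank ℚ K ≤ (1 + 8 * (4 * d) ^ r) *
        ((d + 1) * H + d * ah K (fun q : Fin r × Fin 3 => v q.1 q.2) +
          Real.log ((d + 2) * r ^ d)) := by
  subst hF
  have hr : 1 ≤ r := by
    rcases Nat.eq_zero_or_pos r with rfl | hr
    · simp at h0
      exact absurd h0 hz
    · exact hr
  have h := hypK_log K F hs hd hr t l v x y hxy z hz h0 h1 h2
  refine ⟨h, fun H hH => h.trans ?_⟩
  have h3 := cvec_log K F H hH
  have h4 : (0 : ℝ) ≤ 1 + 8 * (4 * F.natDegree) ^ r := by positivity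
  refine mul_le_mul_of_nonneg_left ?_ h4
  linarith

end Pool.Agent.Results.MP_2a8cc2_nt.SparsePointsUniform
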